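import Mathlib
import Pool.Agent.V11219.QuadFamily
import Pool.Agent.V11219.IsoFamily
import Pool.Agent.V1151.TM.Defs

/-!
# The Tate conjecture for products with powers, elements of local monodromy of two kinds
-/

open CategoryTheory AlgebraicGeometry Finset

set_option linter.unusedSectionVars false

universe u

namespace Pool.Agent.V1151.TM

open Pool.Agent.TH125.Gal Pool.Agent.TH118.SG Pool.Agent.V11219.Quad Pool.Agent.V11219.IsoF
open Pool.Agent.H914 Pool.Agent.H914.VarClass Pool.Agent.H914.VarClass.Obj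
  Pool.Agent.H914.WeilCohomology Pool.Agent.H281R3.HT Pool.Agent.W552

theorem eigT_eq {K : Type} [Field K] {A : Type} [Ring A] [Algebra K A] {Γ : Type} [Group Γ]
    (T : Submodule K A) (ρ : Γ →* (A ≃ₐ[K] A)) (g : Γ) (a : K) :
    eigT T ρ g a = T ⊓ Module.End.eigenspace (ρ g).toLinearMap a := by
  ext t
  rw [Submodule.mem_inf, Module.End.mem_eigenspace_iff]
  exact Iff.rfl

theorem isolatedAct_of {K : Type} [Field K] {A : Type} [Ring A] [Algebra K A] {Γ : Type}
    [Group Γ] {Λ : Subgroup Kˣ} {T : Submodule K A} {ρ : Γ →* (A ≃ₐ[K] A)} {g : Γ}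
    (h : FiniteOrder Λ T ρ g) : IsolatedAct Λ T ρ g := by
  refine ⟨h.1, ?_⟩
  have h1 : (fun a => Module.finrank K (eigT T ρ g a)) = fun a => Module.finrank K
      (T ⊓ Module.End.eigenspace (ρ g).toLinearMap a : Submodule K A) := by
    funext a
    rw [eigT_eq]
  rw [h1]
  exact h.2

variable {k : Type u} [Field k] {𝒱 : VarClass k} {ops : CycleOps 𝒱}
  {W : WeilCohomology.{u, 0} ops} {Γ : Type} [Group Γ] {χ : Γ →* W.Kˣ}

/-- **The Tate conjecture for towers.** -/
theorem tate_local [IsAlgClosed W.K] {ι : Type} {X : ι → GVar W Γ} {Z : GVar W Γ}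
    (h : LocalFamily χ X Z) {S : Set ι} {Y : GVar W Γ} (hY : GTower X Z S Y) :
    TateConjecture χ Y ↔ TateConjecture χ Z := by
  induction hY with
  | base => exact Iff.rfl
  | @step S Y Y' i n hT hi hn hP ih =>
    rw [← ih]
    obtain ⟨υ, h1, h2⟩ := hP
    have hG := isGalois (h.galois i)
    have key : FullT (P := ⟨(X i).X, 0⟩) χ hG Y.act ∧ ∃ t : W.H (X i).X, t ≠ 0 := by
      rcases h.cond i with ⟨g, hgM, hg⟩ | ⟨hF, Λ, g, ⟨hZ, hj⟩, hχ, hg⟩
      · have hg' : CoprimeDefects (transcendental W (X i).X) (X i).act (inertia χ X Z i) g := hg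
        refine ⟨?_, exists_ne_of_coprime (P := ⟨(X i).X, 0⟩) hg'⟩
        exact fullT_quad (P := ⟨(X i).X, 0⟩) (h.homEqNum i) (h.middle i) hG (h.odd i)
          (h.irreducible i) (M := inertia χ X Z i) (fun g hg => hg.1)
          (fun g hg => trivAct.1
            (hT.trivAct (fun j hjS => hg.2.2 j fun h' => hi (h' ▸ hjS)) hg.2.1)) hgM hg'
      · refine ⟨?_, ?_⟩
        · exact fullT_iso (P := ⟨(X i).X, 0⟩) (h.homEqNum i) (h.middle i) hG (h.odd i)
              (h.irreducible i) hχ (isolatedAct_of hg) hF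
              (GTower.eig hT (fun j hjS => hj j fun h' => hi (h' ▸ hjS)) hZ)
        · obtain ⟨F, x, hx, y, hy, hx0, -⟩ := hF
          exact ⟨x, hx0⟩
    obtain ⟨hfull, t, ht⟩ := key
    constructor
    · refine tate_conv (P := ⟨(X i).X, 0⟩) (h.homEqNum i) ?_ (isPowAct h1 h2)
      intro h3
      apply ht
      rw [← one_mul t, h3, zero_mul]
    · exact tate_step'' (P := ⟨(X i).X, 0⟩) (h.homEqNum i) (h.middle i) hG
        (isPowAct h1 h2) (h.odd i) hfull

end Pool.Agent.V1151.TM
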